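import Pool.Agent.K7.H78.TK.Dec

/-!
# Arms of a generalized Takagi function: the combinatorial part

`g i`, `i ≤ 2 ^ (2 m + 1)`, are the values of the `(2 m + 1)`-st partial sum at the points `i / 2 ^ (2 m + 1)`,
multiplied by `2 ^ (2 m + 1)`. The state of the `i`-th interval is the value at its old endpoint (the one with
even index) and the difference of the values at the new and at the old endpoint. The signs of the next two levels
are chosen such that the multiplicity of each state grows at most by one.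
-/

set_option autoImplicit false
set_option linter.unusedTactic false
set_option linter.unreachableTactic false

namespace Pool.Agent.K7.H78.TK

/-- the state of the interval `i` -/
def stG (g : ℕ → ℤ) (i : ℕ) : ℤ × ℤ :=
  if i % 2 = 0 then (g i, g (i + 1) - g i) else (g (i + 1), g i - g (i + 1))

/-- the sign used for the flat pieces: it alternates among the intervals with the same state -/
def bet (g : ℕ → ℤ) (i : ℕ) : ℤ :=
  if Nat.count (fun i' => stG g i' = stG g i) i % 2 = 0 then 1 else -1

def sg1 (g : ℕ → ℤ) (i : ℕ) : ℤ := dl (stG g i).2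

def sg2 (g : ℕ → ℤ) (j : ℕ) : ℤ :=
  if (j / 2) % 2 = j % 2 then -dl (stG g (j / 2)).2 else om2 (stG g (j / 2)).2 (bet g (j / 2))

/-- the values two levels below -/
def step (g : ℕ → ℤ) (j : ℕ) : ℤ :=
  if j % 4 = 0 then 4 * g (j / 4)
  else if j % 4 = 1 then 3 * g (j / 4) + g (j / 4 + 1) + sg1 g (j / 4) + sg2 g (2 * (j / 4))
  else if j % 4 = 2 then 2 * (g (j / 4) + g (j / 4 + 1) + sg1 g (j / 4))
  else g (j / 4) + 3 * g (j / 4 + 1) + sg1 g (j / 4) + sg2 g (2 * (j / 4) + 1)

theorem dl_cases (w : ℤ) : dl w = 1 ∨ dl w = -1 := by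
  unfold dl
  split_ifs <;> simp

theorem bet_cases (g : ℕ → ℤ) (i : ℕ) : bet g i = 1 ∨ bet g i = -1 := by
  unfold bet
  split_ifs <;> simp

theorem om2_cases (w b : ℤ) (hb : b = 1 ∨ b = -1) : om2 w b = 1 ∨ om2 w b = -1 := by
  unfold om2
  split_ifs <;> simp [hb]

theorem step_zero (g : ℕ → ℤ) (i : ℕ) : step g (4 * i) = 4 * g i := by
  have h : (4 * i) % 4 = 0 := by omega
  have h2 : (4 * i) / 4 = i := by omega
  simp [step, h, h2]

theorem step_one (g : ℕ → ℤ) (i : ℕ) :
    step g (4 * i + 1) = 3 * g i + g (i + 1) + sg1 g i + sg2 g (2 * i) := by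
  have h : (4 * i + 1) % 4 = 1 := by omega
  have h2 : (4 * i + 1) / 4 = i := by omega
  simp [step, h, h2]

theorem step_two (g : ℕ → ℤ) (i : ℕ) :
    step g (4 * i + 2) = 2 * (g i + g (i + 1) + sg1 g i) := by
  have h : (4 * i + 2) % 4 = 2 := by omega
  have h2 : (4 * i + 2) / 4 = i := by omega
  simp [step, h, h2]

theorem step_three (g : ℕ → ℤ) (i : ℕ) :
    step g (4 * i + 3) = g i + 3 * g (i + 1) + sg1 g i + sg2 g (2 * i + 1) := by
  have h : (4 * i + 3) % 4 = 3 := by omega
  have h2 : (4 * i + 3) / 4 = i := by omega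
  simp [step, h, h2]

/-- the index of a child, counted from the old endpoint -/
def ori (j : ℕ) : ℕ := if (j / 4) % 2 = 0 then j % 4 else 3 - j % 4

theorem stG_step (g : ℕ → ℤ) (j : ℕ) :
    stG (step g) j = child (stG g (j / 4)).1 (stG g (j / 4)).2 (bet g (j / 4)) (ori j) := by
  obtain ⟨i, r, hr, rfl⟩ : ∃ i r, r < 4 ∧ j = 4 * i + r := ⟨j / 4, j % 4, by omega, by omega⟩
  have h1 : (4 * i + r) / 4 = i := by omega
  have h2 : (4 * i + r) % 4 = r := by omega
  unfold ori
  rw [h1, h2]
  have e4 : step g (4 * i + 4) = 4 * g (i + 1) := by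
    have := step_zero g (i + 1)
    rw [← this]
    ring_nf
  have e0 := step_zero g i
  have e1 := step_one g i
  have e2 := step_two g i
  have e3 := step_three g i
  have p0 : (2 * i) / 2 = i := by omega
  have p1 : (2 * i + 1) / 2 = i := by omega
  have q0 : (2 * i) % 2 = 0 := by omega
  have q1 : (2 * i + 1) % 2 = 1 := by omega
  have s1 : sg1 g i = dl (stG g i).2 := rfl
  have s2 : sg2 g (2 * i) = if i % 2 = 0 then -dl (stG g i).2 else om2 (stG g i).2 (bet g i) := by
    unfold sg2
    rw [p0, q0]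
  have s3 : sg2 g (2 * i + 1) =
      if i % 2 = 1 then -dl (stG g i).2 else om2 (stG g i).2 (bet g i) := by
    unfold sg2
    rw [p1, q1]
  rcases Nat.mod_two_eq_zero_or_one i with hi | hi
  · have st : stG g i = (g i, g (i + 1) - g i) := by simp [stG, hi]
    have ga : g i = (stG g i).1 := by rw [st]
    have gb : g (i + 1) = (stG g i).1 + (stG g i).2 := by rw [st]; simp
    rw [hi] at s2 s3
    simp only [if_true, show ¬ (0 : ℕ) = 1 by decide, if_false] at s2 s3
    rw [if_pos hi]
    generalize stG g i = σ at *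
    interval_cases r
    · have hp : (4 * i + 0) % 2 = 0 := by omega
      rw [stG, if_pos hp]
      simp only [Nat.add_zero, e0, e1, s1, s2, child, Prod.mk.injEq, ga, gb]
      first | (refine ⟨?_, ?_⟩ <;> ring1) | (ring_nf; exact ⟨trivial, trivial⟩)
    · have hp : ¬ (4 * i + 1) % 2 = 0 := by omega
      rw [stG, if_neg hp]
      simp only [show 4 * i + 1 + 1 = 4 * i + 2 by ring, e2, e1, s1, s2, child, Prod.mk.injEq, ga, gb]
      first | (refine ⟨?_, ?_⟩ <;> ring1) | (ring_nf; exact ⟨trivial, trivial⟩)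
    · have hp : (4 * i + 2) % 2 = 0 := by omega
      rw [stG, if_pos hp]
      simp only [show 4 * i + 2 + 1 = 4 * i + 3 by ring, e2, e3, s1, s3, child, Prod.mk.injEq, ga, gb]
      first | (refine ⟨?_, ?_⟩ <;> ring1) | (ring_nf; exact ⟨trivial, trivial⟩)
    · have hp : ¬ (4 * i + 3) % 2 = 0 := by omega
      rw [stG, if_neg hp]
      simp only [show 4 * i + 3 + 1 = 4 * i + 4 by ring, e4, e3, s1, s3, child, Prod.mk.injEq, ga, gb]
      first | (refine ⟨?_, ?_⟩ <;> ring1) | (ring_nf; exact ⟨trivial, trivial⟩)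
  · have st : stG g i = (g (i + 1), g i - g (i + 1)) := by simp [stG, hi]
    have ga : g (i + 1) = (stG g i).1 := by rw [st]
    have gb : g i = (stG g i).1 + (stG g i).2 := by rw [st]; simp
    rw [hi] at s2 s3
    simp only [if_true, show ¬ (1 : ℕ) = 0 by decide, if_false] at s2 s3
    rw [if_neg (by omega)]
    generalize stG g i = σ at *
    interval_cases r
    · have hp : (4 * i + 0) % 2 = 0 := by omega
      rw [stG, if_pos hp]
      simp only [Nat.add_zero, Nat.sub_zero, e0, e1, s1, s2, child, Prod.mk.injEq, ga, gb]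
      first | (refine ⟨?_, ?_⟩ <;> ring1) | (ring_nf; exact ⟨trivial, trivial⟩)
    · have hp : ¬ (4 * i + 1) % 2 = 0 := by omega
      rw [stG, if_neg hp]
      simp only [show 4 * i + 1 + 1 = 4 * i + 2 by ring, show 3 - 1 = 2 by rfl, e2, e1, s1, s2, child,
        Prod.mk.injEq, ga, gb]
      first | (refine ⟨?_, ?_⟩ <;> ring1) | (ring_nf; exact ⟨trivial, trivial⟩)
    · have hp : (4 * i + 2) % 2 = 0 := by omega
      rw [stG, if_pos hp]
      simp only [show 4 * i + 2 + 1 = 4 * i + 3 by ring, show 3 - 2 = 1 by rfl, e2, e3, s1, s3, child,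
        Prod.mk.injEq, ga, gb]
      first | (refine ⟨?_, ?_⟩ <;> ring1) | (ring_nf; exact ⟨trivial, trivial⟩)
    · have hp : ¬ (4 * i + 3) % 2 = 0 := by omega
      rw [stG, if_neg hp]
      simp only [show 4 * i + 3 + 1 = 4 * i + 4 by ring, show 3 - 3 = 0 by rfl, e4, e3, s1, s3, child,
        Prod.mk.injEq, ga, gb]
      first | (refine ⟨?_, ?_⟩ <;> ring1) | (ring_nf; exact ⟨trivial, trivial⟩)


/-- the state of a child determines the state of the parent and, if it is not flat, the index of
the child -/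
theorem child_inj {a w b a' w' b' : ℤ} (ha : a % 4 = 0) (ha' : a' % 4 = 0) (hw : w % 2 = 1)
    (hw' : w' % 2 = 1) (hb : b = 1 ∨ b = -1) (hb' : b' = 1 ∨ b' = -1) {r r' : ℕ} (hr : r < 4)
    (hr' : r' < 4) (h : child a w b r = child a' w' b' r') :
    a = a' ∧ w = w' ∧ (r = r' ∨ ((w = 1 ∨ w = -1) ∧ 2 ≤ r ∧ 2 ≤ r')) ∧
      ((w = 1 ∨ w = -1) → 2 ≤ r → b = b') := by
  obtain ⟨n, rfl⟩ : ∃ n, a = 4 * n := ⟨a / 4, by omega⟩
  obtain ⟨n', rfl⟩ : ∃ n, a' = 4 * n := ⟨a' / 4, by omega⟩
  obtain ⟨N, h1, h2⟩ := dec_child (n := n) hw hb hr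
  obtain ⟨N', h1', h2'⟩ := dec_child (n := n') hw' hb' hr'
  rw [h, h1'] at h1
  have hN : N = N' := by omega
  rw [h, hN, h2'] at h2
  simp only [Prod.mk.injEq] at h2
  obtain ⟨h3, h4, h5⟩ := h2
  subst h4
  have hn : 4 * n = 4 * n' := h3.symm
  refine ⟨hn, rfl, ?_, ?_⟩
  · by_cases hf : w' = 1 ∨ w' = -1
    · simp only [hf, true_and] at h5 ⊢
      split_ifs at h5 <;> omega
    · simp only [hf, false_and, if_false] at h5
      left
      exact h5.symm
  · intro hf hr2
    have hr2' : 2 ≤ r' := by
      simp only [hf, true_and] at h5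
      split_ifs at h5 <;> omega
    have hs : ∀ (c β : ℤ) (t : ℕ), 2 ≤ t → t < 4 → (child c w' β t).2 = β := by
      intro c β t ht ht'
      rcases hf with rfl | rfl <;> interval_cases t <;> simp [child, dl, om2]
    have e := congrArg Prod.snd h
    rw [hs _ _ _ hr2 hr, hs _ _ _ hr2' hr'] at e
    exact e

theorem count_parity (P : ℕ → Prop) [DecidablePred P] (N : ℕ) :
    Nat.count (fun i => P i ∧ Nat.count P i % 2 = 0) N = (Nat.count P N + 1) / 2 ∧
      Nat.count (fun i => P i ∧ Nat.count P i % 2 = 1) N = Nat.count P N / 2 := by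
  induction N with
  | zero => simp
  | succ N ih =>
    obtain ⟨h1, h2⟩ := ih
    rw [Nat.count_succ, Nat.count_succ, Nat.count_succ, h1, h2]
    by_cases hP : P N
    · rcases Nat.mod_two_eq_zero_or_one (Nat.count P N) with h | h
      · simp only [hP, h, and_self, if_true, true_and, show ¬ (0 : ℕ) = 1 by decide, if_false]
        omega
      · simp only [hP, h, and_self, if_true, true_and, show ¬ (1 : ℕ) = 0 by decide, if_false]
        omega
    · simp [hP]

theorem ori_lt (j : ℕ) : ori j < 4 := by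
  unfold ori
  split_ifs <;> omega

theorem mult_step {g : ℕ → ℤ} (hg : ∀ i, (stG g i).1 % 4 = 0 ∧ (stG g i).2 % 2 = 1) {N B : ℕ}
    (hB : ∀ σ, Nat.count (fun i => stG g i = σ) N ≤ B) (σ : ℤ × ℤ) :
    Nat.count (fun j => stG (step g) j = σ) (4 * N) ≤ B + 1 := by
  rw [Nat.count_eq_card_filter_range]
  set S := (Finset.range (4 * N)).filter (fun j => stG (step g) j = σ) with hS
  rcases S.eq_empty_or_nonempty with he | ⟨j0, hj0⟩
  · rw [he]
    simp
  have hmem : ∀ j ∈ S, j < 4 * N ∧ stG (step g) j = σ := fun j hj => by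
    rw [hS, Finset.mem_filter, Finset.mem_range] at hj
    exact hj
  have key : ∀ j ∈ S, stG g (j / 4) = stG g (j0 / 4) ∧
      (ori j = ori j0 ∨ (((stG g (j0 / 4)).2 = 1 ∨ (stG g (j0 / 4)).2 = -1) ∧ 2 ≤ ori j ∧
        2 ≤ ori j0)) ∧
      (((stG g (j0 / 4)).2 = 1 ∨ (stG g (j0 / 4)).2 = -1) → 2 ≤ ori j →
        bet g (j / 4) = bet g (j0 / 4)) := by
    intro j hj
    have h1 := (hmem j hj).2
    have h2 := (hmem j0 hj0).2
    rw [stG_step] at h1 h2
    obtain ⟨e1, e2, e3, e4⟩ := child_inj (hg _).1 (hg _).1 (hg _).2 (hg _).2 (bet_cases g _)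
      (bet_cases g _) (ori_lt j) (ori_lt j0) (h1.trans h2.symm)
    rw [e2] at e3 e4
    exact ⟨Prod.ext e1 e2, e3, e4⟩
  set τ := stG g (j0 / 4) with hτ
  by_cases hflat : (τ.2 = 1 ∨ τ.2 = -1) ∧ 2 ≤ ori j0
  · -- flat pieces
    have hk : ∀ j ∈ S, stG g (j / 4) = τ ∧ 2 ≤ ori j ∧ bet g (j / 4) = bet g (j0 / 4) := by
      intro j hj
      obtain ⟨h1, h2, h3⟩ := key j hj
      have h4 : 2 ≤ ori j := by
        rcases h2 with h2 | h2
        · rw [h2]
          exact hflat.2
        · exact h2.2.1
      exact ⟨h1, h4, h3 hflat.1 h4⟩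
    have hbet : ∀ i, stG g i = τ → bet g i =
        if Nat.count (fun i' => stG g i' = τ) i % 2 = 0 then 1 else -1 := by
      intro i hi
      rw [bet, hi]
    set T := (Finset.range N).filter (fun i => stG g i = τ ∧ bet g i = bet g (j0 / 4)) with hT
    have hST : S.card ≤ 2 * T.card := by
      refine Finset.card_le_mul_card_image_of_maps_to (f := fun j => j / 4) ?_ 2 ?_
      · intro j hj
        have h1 := hk j hj
        have h2 := (hmem j hj).1
        rw [hT, Finset.mem_filter, Finset.mem_range]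
        exact ⟨by omega, h1.1, h1.2.2⟩
      · intro i _
        have hsub : S.filter (fun j => j / 4 = i) ⊆
            ({if i % 2 = 0 then 4 * i + 2 else 4 * i, if i % 2 = 0 then 4 * i + 3 else 4 * i + 1} :
              Finset ℕ) := by
          intro j hj
          rw [Finset.mem_filter] at hj
          have h1 := (hk j hj.1).2.1
          have h2 := hj.2
          rw [Finset.mem_insert, Finset.mem_singleton]
          unfold ori at h1
          rw [h2] at h1
          split_ifs at h1 ⊢ <;> omega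
        exact (Finset.card_le_card hsub).trans Finset.card_le_two
    have hTc : T.card ≤ (Nat.count (fun i => stG g i = τ) N + 1) / 2 := by
      obtain ⟨c1, c2⟩ := count_parity (fun i => stG g i = τ) N
      rcases bet_cases g (j0 / 4) with hb | hb
      · rw [← c1, Nat.count_eq_card_filter_range]
        refine Finset.card_le_card fun i hi => ?_
        rw [hT, Finset.mem_filter] at hi
        rw [Finset.mem_filter]
        refine ⟨hi.1, hi.2.1, ?_⟩
        have h1 := hbet i hi.2.1
        rw [hi.2.2, hb] at h1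
        split_ifs at h1 with h2
        · exact h2
      · refine le_trans ?_ (Nat.div_le_div_right (Nat.le_succ _))
        rw [← c2, Nat.count_eq_card_filter_range]
        refine Finset.card_le_card fun i hi => ?_
        rw [hT, Finset.mem_filter] at hi
        rw [Finset.mem_filter]
        refine ⟨hi.1, hi.2.1, ?_⟩
        have h1 := hbet i hi.2.1
        rw [hi.2.2, hb] at h1
        split_ifs at h1 with h2
        · omega
    have := hB τ
    omega
  · have hk : ∀ j ∈ S, stG g (j / 4) = τ ∧ ori j = ori j0 := by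
      intro j hj
      obtain ⟨h1, h2, h3⟩ := key j hj
      refine ⟨h1, ?_⟩
      rcases h2 with h2 | h2
      · exact h2
      · exact absurd ⟨h2.1, h2.2.2⟩ hflat
    have hle : S.card ≤ ((Finset.range N).filter (fun i => stG g i = τ)).card := by
      refine Finset.card_le_card_of_injOn (fun j => j / 4) ?_ ?_
      · intro j hj
        have h1 := hk j hj
        have h2 := (hmem j hj).1
        rw [Finset.mem_coe, Finset.mem_filter, Finset.mem_range]
        exact ⟨(show j / 4 < N by omega), h1.1⟩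
      · intro j hj j' hj' hjj
        have h1 := (hk j hj).2
        have h2 := (hk j' hj').2
        have h3 : j / 4 = j' / 4 := hjj
        have h4 := h1.trans h2.symm
        unfold ori at h4
        rw [h3] at h4
        split_ifs at h4 <;> omega
    have h5 := hB τ
    rw [Nat.count_eq_card_filter_range] at h5
    exact hle.trans (h5.trans (Nat.le_succ _))

/-- the values at the level `2 m + 1` -/
def G : ℕ → ℕ → ℤ
  | 0 => fun i => ((i % 2 : ℕ) : ℤ)
  | m + 1 => step (G m)

theorem stG_zero (i : ℕ) : stG (G 0) i = (0, 1) := by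
  rcases Nat.mod_two_eq_zero_or_one i with h | h
  · have h2 : (i + 1) % 2 = 1 := by omega
    simp [stG, G, h, h2]
  · have h2 : (i + 1) % 2 = 0 := by omega
    simp [stG, G, h, h2]

theorem G_inv (m : ℕ) : ∀ i, (stG (G m) i).1 % 4 = 0 ∧ (stG (G m) i).2 % 2 = 1 ∧
    |(stG (G m) i).2| ≤ 2 * m + 1 := by
  induction m with
  | zero =>
    intro i
    rw [stG_zero]
    simp
  | succ m ih =>
    intro j
    obtain ⟨h1, h2, h3⟩ := ih (j / 4)
    rw [G, stG_step]
    generalize (stG (G m) (j / 4)).1 = a at *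
    generalize (stG (G m) (j / 4)).2 = w at *
    have hd := dl_cases w
    have ho := om2_cases w _ (bet_cases (G m) (j / 4))
    have hr := ori_lt j
    generalize ori j = r at *
    rw [abs_le] at h3
    rw [abs_le]
    push_cast
    interval_cases r
    · simp only [child]
      omega
    · simp only [child]
      omega
    · simp only [child]
      omega
    · simp only [child]
      omega

theorem G_mult (m : ℕ) : ∀ σ, Nat.count (fun i => stG (G m) i = σ) (2 * 4 ^ m) ≤ m + 2 := by
  induction m with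
  | zero =>
    intro σ
    exact Nat.count_le _
  | succ m ih =>
    intro σ
    have h := mult_step (fun i => ⟨(G_inv m i).1, (G_inv m i).2.1⟩) ih σ
    have e : 2 * 4 ^ (m + 1) = 4 * (2 * 4 ^ m) := by ring
    rw [e]
    exact h

end Pool.Agent.K7.H78.TK
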