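import Mathlib

/-!
# Arms of a generalized Takagi function: the rule, and the fact that it is reversible
-/

set_option autoImplicit false
set_option linter.unusedSimpArgs false

namespace Pool.Agent.K7.H78.TK

/-- the sign of the odd level -/
def dl (w : ℤ) : ℤ := if w % 8 = 1 ∨ w % 8 = 3 then 1 else -1

/-- the sign of the even level at the new endpoint -/
def om2 (w b : ℤ) : ℤ :=
  if w = 1 ∨ w = -1 then b
  else if 0 < w then (if w % 8 = 5 then 1 else -1) else (if w % 8 = 3 then -1 else 1)

/-- the states of the four intervals two levels below -/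
def child (a w b : ℤ) : ℕ → ℤ × ℤ
  | 0 => (4 * a, w)
  | 1 => (4 * a + 2 * (w + dl w), -w - 2 * dl w)
  | 2 => (4 * a + 2 * (w + dl w), w - dl w + om2 w b)
  | _ => (4 * (a + w), -w + dl w + om2 w b)

/-- the ten classes of odd numbers -/
theorem classes (w b : ℤ) (hw : w % 2 = 1) :
    (w = 1 ∧ dl w = 1 ∧ om2 w b = b) ∨ (w = -1 ∧ dl w = -1 ∧ om2 w b = b) ∨
    (∃ q, 0 < q ∧ w = 8 * q + 1 ∧ dl w = 1 ∧ om2 w b = -1) ∨
    (∃ q, 0 ≤ q ∧ w = 8 * q + 3 ∧ dl w = 1 ∧ om2 w b = -1) ∨
    (∃ q, 0 ≤ q ∧ w = 8 * q + 5 ∧ dl w = -1 ∧ om2 w b = 1) ∨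
    (∃ q, 0 ≤ q ∧ w = 8 * q + 7 ∧ dl w = -1 ∧ om2 w b = -1) ∨
    (∃ q, 0 < q ∧ w = -8 * q - 1 ∧ dl w = -1 ∧ om2 w b = 1) ∨
    (∃ q, 0 ≤ q ∧ w = -8 * q - 3 ∧ dl w = -1 ∧ om2 w b = 1) ∨
    (∃ q, 0 ≤ q ∧ w = -8 * q - 5 ∧ dl w = 1 ∧ om2 w b = -1) ∨
    (∃ q, 0 ≤ q ∧ w = -8 * q - 7 ∧ dl w = 1 ∧ om2 w b = 1) := by
  by_cases h1 : w = 1
  · left; subst h1; simp [dl, om2]
  by_cases h2 : w = -1
  · right; left; subst h2; simp [dl, om2]
  right; right
  have key : ∃ q r, w = 8 * q + r ∧ (r = 1 ∨ r = 3 ∨ r = 5 ∨ r = 7) :=
    ⟨w / 8, w % 8, by omega, by omega⟩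
  obtain ⟨q, r, hq, hr⟩ := key
  have hne : ¬ (w = 1 ∨ w = -1) := by tauto
  by_cases hpos : 0 < w
  · rcases hr with rfl | rfl | rfl | rfl
    · left
      refine ⟨q, by omega, hq, ?_, ?_⟩
      · rw [dl, if_pos (by omega)]
      · rw [om2, if_neg hne, if_pos hpos, if_neg (by omega)]
    · right; left
      refine ⟨q, by omega, hq, ?_, ?_⟩
      · rw [dl, if_pos (by omega)]
      · rw [om2, if_neg hne, if_pos hpos, if_neg (by omega)]
    · right; right; left
      refine ⟨q, by omega, hq, ?_, ?_⟩
      · rw [dl, if_neg (by omega)]
      · rw [om2, if_neg hne, if_pos hpos, if_pos (by omega)]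
    · right; right; right; left
      refine ⟨q, by omega, hq, ?_, ?_⟩
      · rw [dl, if_neg (by omega)]
      · rw [om2, if_neg hne, if_pos hpos, if_neg (by omega)]
  · right; right; right; right
    rcases hr with rfl | rfl | rfl | rfl
    · right; right; right
      refine ⟨-q - 1, by omega, by omega, ?_, ?_⟩
      · rw [dl, if_pos (by omega)]
      · rw [om2, if_neg hne, if_neg hpos, if_neg (by omega)]
    · right; right; left
      refine ⟨-q - 1, by omega, by omega, ?_, ?_⟩
      · rw [dl, if_pos (by omega)]
      · rw [om2, if_neg hne, if_neg hpos, if_pos (by omega)]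
    · right; left
      refine ⟨-q - 1, by omega, by omega, ?_, ?_⟩
      · rw [dl, if_neg (by omega)]
      · rw [om2, if_neg hne, if_neg hpos, if_neg (by omega)]
    · left
      refine ⟨-q - 1, by omega, by omega, ?_, ?_⟩
      · rw [dl, if_neg (by omega)]
      · rw [om2, if_neg hne, if_neg hpos, if_neg (by omega)]

/-- the parent of a state at a positive arm -/
def decP (N W : ℤ) : ℤ × ℤ × ℕ :=
  if W % 8 = 1 then
    (if N % 4 = 1 then (N + W - 2, 2 - W, 3)
      else if N % 4 = 2 then (N - (W - 1) / 2 - 2, W + 2, 2) else (N + W, -W, 3))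
  else if W % 8 = 3 then
    (if N % 4 = 1 then (N + W, -W, 3)
      else if N % 4 = 2 then (N + (W - 1) / 2 + 1, -W - 2, 1) else (N + (W - 1) / 2, 2 - W, 1))
  else if W % 8 = 5 then
    (if N % 4 = 1 then (N + (W - 1) / 2 + 1, -W - 2, 1)
      else if N % 4 = 2 then (N + (W - 1) / 2, 2 - W, 1) else (N + W, -W, 3))
  else
    (if N % 4 = 1 then (N - (W - 1) / 2 - 2, W + 2, 2)
      else if N % 4 = 2 then (N - (W - 1) / 2 + 1, W - 2, 2) else (N - (W - 1) / 2, W, 2))

/-- the parent of a state -/
def dec (N W : ℤ) : ℤ × ℤ × ℕ :=
  if N % 4 = 0 then (N, W, 0)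
  else if 0 < W then decP N W
  else (-(decP (-N) (-W)).1, -(decP (-N) (-W)).2.1, (decP (-N) (-W)).2.2)

theorem dec_pos {N W : ℤ} (c d : ℤ) (h0 : N % 4 = c) (hc : c = 1 ∨ c = 2 ∨ c = 3) (hW : 0 < W)
    (h8 : W % 8 = d) (hd : d = 1 ∨ d = 3 ∨ d = 5 ∨ d = 7) :
    dec N W = if d = 1 then
    (if c = 1 then (N + W - 2, 2 - W, 3)
      else if c = 2 then (N - (W - 1) / 2 - 2, W + 2, 2) else (N + W, -W, 3))
  else if d = 3 then
    (if c = 1 then (N + W, -W, 3)
      else if c = 2 then (N + (W - 1) / 2 + 1, -W - 2, 1) else (N + (W - 1) / 2, 2 - W, 1))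
  else if d = 5 then
    (if c = 1 then (N + (W - 1) / 2 + 1, -W - 2, 1)
      else if c = 2 then (N + (W - 1) / 2, 2 - W, 1) else (N + W, -W, 3))
  else
    (if c = 1 then (N - (W - 1) / 2 - 2, W + 2, 2)
      else if c = 2 then (N - (W - 1) / 2 + 1, W - 2, 2) else (N - (W - 1) / 2, W, 2)) := by
  subst h0 h8
  rw [dec, if_neg (by omega), if_pos hW, decP]

theorem dec_neg {N W : ℤ} (hN : N % 4 ≠ 0) (hW : W < 0) :
    dec N W = (-(dec (-N) (-W)).1, -(dec (-N) (-W)).2.1, (dec (-N) (-W)).2.2) := by
  rw [dec, if_neg hN, if_neg (by omega)]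
  have h : dec (-N) (-W) = decP (-N) (-W) := by
    rw [dec, if_neg (by omega), if_pos (by omega)]
  rw [h]

theorem dec_child {n w b : ℤ} (hw : w % 2 = 1) (hb : b = 1 ∨ b = -1) {r : ℕ} (hr : r < 4) :
    ∃ N, (child (4 * n) w b r).1 = 4 * N ∧
      dec N (child (4 * n) w b r).2 = (4 * n, w, if (w = 1 ∨ w = -1) ∧ r = 2 then 3 else r) := by
  rcases classes w b hw with ⟨h10, h11, h12⟩ | ⟨h10, h11, h12⟩ | ⟨q, hq, h10, h11, h12⟩ |
    ⟨q, hq, h10, h11, h12⟩ | ⟨q, hq, h10, h11, h12⟩ | ⟨q, hq, h10, h11, h12⟩ |
    ⟨q, hq, h10, h11, h12⟩ | ⟨q, hq, h10, h11, h12⟩ | ⟨q, hq, h10, h11, h12⟩ |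
    ⟨q, hq, h10, h11, h12⟩
  · interval_cases r
    · refine ⟨4 * n + 0, ?_, ?_⟩
      · simp only [child, h11]; omega
      · rw [dec, if_pos (by omega)]
        simp [child]
    · refine ⟨4 * n + 1, ?_, ?_⟩
      · simp only [child, h11]; omega
      · have e : (child (4 * n) w b 1).2 = -3 := by
          simp only [child, h11, h12]; omega
        rw [e, dec_neg (by omega) (by omega), dec_pos 3 3 (by omega) (by decide) (by omega) (by omega) (by decide)]
        simp; omega
    · refine ⟨4 * n + 1, ?_, ?_⟩
      · simp only [child, h11]; omega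
      · have e : (child (4 * n) w b 2).2 = b := by
          simp only [child, h11, h12]; omega
        rw [e]
        rcases hb with rfl | rfl
        · rw [dec_pos 1 1 (by omega) (by decide) (by omega) (by omega) (by decide)]
          simp; omega
        · rw [dec_neg (by omega) (by omega), dec_pos 3 1 (by omega) (by decide) (by omega) (by omega) (by decide)]
          simp; omega
    · refine ⟨4 * n + 1, ?_, ?_⟩
      · simp only [child, h11]; omega
      · have e : (child (4 * n) w b 3).2 = b := by
          simp only [child, h11, h12]; omega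
        rw [e]
        rcases hb with rfl | rfl
        · rw [dec_pos 1 1 (by omega) (by decide) (by omega) (by omega) (by decide)]
          simp; omega
        · rw [dec_neg (by omega) (by omega), dec_pos 3 1 (by omega) (by decide) (by omega) (by omega) (by decide)]
          simp; omega
  · interval_cases r
    · refine ⟨4 * n + 0, ?_, ?_⟩
      · simp only [child, h11]; omega
      · rw [dec, if_pos (by omega)]
        simp [child]
    · refine ⟨4 * n - 1, ?_, ?_⟩
      · simp only [child, h11]; omega
      · have e : (child (4 * n) w b 1).2 = 3 := by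
          simp only [child, h11, h12]; omega
        rw [e, dec_pos 3 3 (by omega) (by decide) (by omega) (by omega) (by decide)]
        simp; omega
    · refine ⟨4 * n - 1, ?_, ?_⟩
      · simp only [child, h11]; omega
      · have e : (child (4 * n) w b 2).2 = b := by
          simp only [child, h11, h12]; omega
        rw [e]
        rcases hb with rfl | rfl
        · rw [dec_pos 3 1 (by omega) (by decide) (by omega) (by omega) (by decide)]
          simp; omega
        · rw [dec_neg (by omega) (by omega), dec_pos 1 1 (by omega) (by decide) (by omega) (by omega) (by decide)]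
          simp; omega
    · refine ⟨4 * n - 1, ?_, ?_⟩
      · simp only [child, h11]; omega
      · have e : (child (4 * n) w b 3).2 = b := by
          simp only [child, h11, h12]; omega
        rw [e]
        rcases hb with rfl | rfl
        · rw [dec_pos 3 1 (by omega) (by decide) (by omega) (by omega) (by decide)]
          simp; omega
        · rw [dec_neg (by omega) (by omega), dec_pos 1 1 (by omega) (by decide) (by omega) (by omega) (by decide)]
          simp; omega
  · interval_cases r
    · refine ⟨4 * n + 0, ?_, ?_⟩
      · simp only [child, h11]; omega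
      · rw [dec, if_pos (by omega)]
        simp [child]
    · refine ⟨4 * n + 4 * q + 1, ?_, ?_⟩
      · simp only [child, h11]; omega
      · have e : (child (4 * n) w b 1).2 = -8 * q - 3 := by
          simp only [child, h11, h12]; omega
        rw [e, dec_neg (by omega) (by omega), dec_pos 3 3 (by omega) (by decide) (by omega) (by omega) (by decide)]
        simp; omega
    · refine ⟨4 * n + 4 * q + 1, ?_, ?_⟩
      · simp only [child, h11]; omega
      · have e : (child (4 * n) w b 2).2 = 8 * q - 1 := by
          simp only [child, h11, h12]; omega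
        rw [e, dec_pos 1 7 (by omega) (by decide) (by omega) (by omega) (by decide)]
        simp; omega
    · refine ⟨4 * n + 8 * q + 1, ?_, ?_⟩
      · simp only [child, h11]; omega
      · have e : (child (4 * n) w b 3).2 = -8 * q - 1 := by
          simp only [child, h11, h12]; omega
        rw [e, dec_neg (by omega) (by omega), dec_pos 3 1 (by omega) (by decide) (by omega) (by omega) (by decide)]
        simp; omega
  · interval_cases r
    · refine ⟨4 * n + 0, ?_, ?_⟩
      · simp only [child, h11]; omega
      · rw [dec, if_pos (by omega)]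
        simp [child]
    · refine ⟨4 * n + 4 * q + 2, ?_, ?_⟩
      · simp only [child, h11]; omega
      · have e : (child (4 * n) w b 1).2 = -8 * q - 5 := by
          simp only [child, h11, h12]; omega
        rw [e, dec_neg (by omega) (by omega), dec_pos 2 5 (by omega) (by decide) (by omega) (by omega) (by decide)]
        simp; omega
    · refine ⟨4 * n + 4 * q + 2, ?_, ?_⟩
      · simp only [child, h11]; omega
      · have e : (child (4 * n) w b 2).2 = 8 * q + 1 := by
          simp only [child, h11, h12]; omega
        rw [e, dec_pos 2 1 (by omega) (by decide) (by omega) (by omega) (by decide)]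
        simp; omega
    · refine ⟨4 * n + 8 * q + 3, ?_, ?_⟩
      · simp only [child, h11]; omega
      · have e : (child (4 * n) w b 3).2 = -8 * q - 3 := by
          simp only [child, h11, h12]; omega
        rw [e, dec_neg (by omega) (by omega), dec_pos 1 3 (by omega) (by decide) (by omega) (by omega) (by decide)]
        simp; omega
  · interval_cases r
    · refine ⟨4 * n + 0, ?_, ?_⟩
      · simp only [child, h11]; omega
      · rw [dec, if_pos (by omega)]
        simp [child]
    · refine ⟨4 * n + 4 * q + 2, ?_, ?_⟩
      · simp only [child, h11]; omega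
      · have e : (child (4 * n) w b 1).2 = -8 * q - 3 := by
          simp only [child, h11, h12]; omega
        rw [e, dec_neg (by omega) (by omega), dec_pos 2 3 (by omega) (by decide) (by omega) (by omega) (by decide)]
        simp; omega
    · refine ⟨4 * n + 4 * q + 2, ?_, ?_⟩
      · simp only [child, h11]; omega
      · have e : (child (4 * n) w b 2).2 = 8 * q + 7 := by
          simp only [child, h11, h12]; omega
        rw [e, dec_pos 2 7 (by omega) (by decide) (by omega) (by omega) (by decide)]
        simp; omega
    · refine ⟨4 * n + 8 * q + 5, ?_, ?_⟩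
      · simp only [child, h11]; omega
      · have e : (child (4 * n) w b 3).2 = -8 * q - 5 := by
          simp only [child, h11, h12]; omega
        rw [e, dec_neg (by omega) (by omega), dec_pos 3 5 (by omega) (by decide) (by omega) (by omega) (by decide)]
        simp; omega
  · interval_cases r
    · refine ⟨4 * n + 0, ?_, ?_⟩
      · simp only [child, h11]; omega
      · rw [dec, if_pos (by omega)]
        simp [child]
    · refine ⟨4 * n + 4 * q + 3, ?_, ?_⟩
      · simp only [child, h11]; omega
      · have e : (child (4 * n) w b 1).2 = -8 * q - 5 := by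
          simp only [child, h11, h12]; omega
        rw [e, dec_neg (by omega) (by omega), dec_pos 1 5 (by omega) (by decide) (by omega) (by omega) (by decide)]
        simp; omega
    · refine ⟨4 * n + 4 * q + 3, ?_, ?_⟩
      · simp only [child, h11]; omega
      · have e : (child (4 * n) w b 2).2 = 8 * q + 7 := by
          simp only [child, h11, h12]; omega
        rw [e, dec_pos 3 7 (by omega) (by decide) (by omega) (by omega) (by decide)]
        simp; omega
    · refine ⟨4 * n + 8 * q + 7, ?_, ?_⟩
      · simp only [child, h11]; omega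
      · have e : (child (4 * n) w b 3).2 = -8 * q - 9 := by
          simp only [child, h11, h12]; omega
        rw [e, dec_neg (by omega) (by omega), dec_pos 1 1 (by omega) (by decide) (by omega) (by omega) (by decide)]
        simp; omega
  · interval_cases r
    · refine ⟨4 * n + 0, ?_, ?_⟩
      · simp only [child, h11]; omega
      · rw [dec, if_pos (by omega)]
        simp [child]
    · refine ⟨4 * n - 4 * q - 1, ?_, ?_⟩
      · simp only [child, h11]; omega
      · have e : (child (4 * n) w b 1).2 = 8 * q + 3 := by
          simp only [child, h11, h12]; omega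
        rw [e, dec_pos 3 3 (by omega) (by decide) (by omega) (by omega) (by decide)]
        simp; omega
    · refine ⟨4 * n - 4 * q - 1, ?_, ?_⟩
      · simp only [child, h11]; omega
      · have e : (child (4 * n) w b 2).2 = -8 * q + 1 := by
          simp only [child, h11, h12]; omega
        rw [e, dec_neg (by omega) (by omega), dec_pos 1 7 (by omega) (by decide) (by omega) (by omega) (by decide)]
        simp; omega
    · refine ⟨4 * n - 8 * q - 1, ?_, ?_⟩
      · simp only [child, h11]; omega
      · have e : (child (4 * n) w b 3).2 = 8 * q + 1 := by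
          simp only [child, h11, h12]; omega
        rw [e, dec_pos 3 1 (by omega) (by decide) (by omega) (by omega) (by decide)]
        simp; omega
  · interval_cases r
    · refine ⟨4 * n + 0, ?_, ?_⟩
      · simp only [child, h11]; omega
      · rw [dec, if_pos (by omega)]
        simp [child]
    · refine ⟨4 * n - 4 * q - 2, ?_, ?_⟩
      · simp only [child, h11]; omega
      · have e : (child (4 * n) w b 1).2 = 8 * q + 5 := by
          simp only [child, h11, h12]; omega
        rw [e, dec_pos 2 5 (by omega) (by decide) (by omega) (by omega) (by decide)]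
        simp; omega
    · refine ⟨4 * n - 4 * q - 2, ?_, ?_⟩
      · simp only [child, h11]; omega
      · have e : (child (4 * n) w b 2).2 = -8 * q - 1 := by
          simp only [child, h11, h12]; omega
        rw [e, dec_neg (by omega) (by omega), dec_pos 2 1 (by omega) (by decide) (by omega) (by omega) (by decide)]
        simp; omega
    · refine ⟨4 * n - 8 * q - 3, ?_, ?_⟩
      · simp only [child, h11]; omega
      · have e : (child (4 * n) w b 3).2 = 8 * q + 3 := by
          simp only [child, h11, h12]; omega
        rw [e, dec_pos 1 3 (by omega) (by decide) (by omega) (by omega) (by decide)]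
        simp; omega
  · interval_cases r
    · refine ⟨4 * n + 0, ?_, ?_⟩
      · simp only [child, h11]; omega
      · rw [dec, if_pos (by omega)]
        simp [child]
    · refine ⟨4 * n - 4 * q - 2, ?_, ?_⟩
      · simp only [child, h11]; omega
      · have e : (child (4 * n) w b 1).2 = 8 * q + 3 := by
          simp only [child, h11, h12]; omega
        rw [e, dec_pos 2 3 (by omega) (by decide) (by omega) (by omega) (by decide)]
        simp; omega
    · refine ⟨4 * n - 4 * q - 2, ?_, ?_⟩
      · simp only [child, h11]; omega
      · have e : (child (4 * n) w b 2).2 = -8 * q - 7 := by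
          simp only [child, h11, h12]; omega
        rw [e, dec_neg (by omega) (by omega), dec_pos 2 7 (by omega) (by decide) (by omega) (by omega) (by decide)]
        simp; omega
    · refine ⟨4 * n - 8 * q - 5, ?_, ?_⟩
      · simp only [child, h11]; omega
      · have e : (child (4 * n) w b 3).2 = 8 * q + 5 := by
          simp only [child, h11, h12]; omega
        rw [e, dec_pos 3 5 (by omega) (by decide) (by omega) (by omega) (by decide)]
        simp; omega
  · interval_cases r
    · refine ⟨4 * n + 0, ?_, ?_⟩
      · simp only [child, h11]; omega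
      · rw [dec, if_pos (by omega)]
        simp [child]
    · refine ⟨4 * n - 4 * q - 3, ?_, ?_⟩
      · simp only [child, h11]; omega
      · have e : (child (4 * n) w b 1).2 = 8 * q + 5 := by
          simp only [child, h11, h12]; omega
        rw [e, dec_pos 1 5 (by omega) (by decide) (by omega) (by omega) (by decide)]
        simp; omega
    · refine ⟨4 * n - 4 * q - 3, ?_, ?_⟩
      · simp only [child, h11]; omega
      · have e : (child (4 * n) w b 2).2 = -8 * q - 7 := by
          simp only [child, h11, h12]; omega
        rw [e, dec_neg (by omega) (by omega), dec_pos 3 7 (by omega) (by decide) (by omega) (by omega) (by decide)]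
        simp; omega
    · refine ⟨4 * n - 8 * q - 7, ?_, ?_⟩
      · simp only [child, h11]; omega
      · have e : (child (4 * n) w b 3).2 = 8 * q + 9 := by
          simp only [child, h11, h12]; omega
        rw [e, dec_pos 1 1 (by omega) (by decide) (by omega) (by omega) (by decide)]
        simp; omega
end Pool.Agent.K7.H78.TK
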