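import Mathlib

/-!
# Generalized Takagi functions: partial sums and the dimension of sets with polynomial covers
-/

set_option autoImplicit false

namespace Pool.Agent.K7.H78.TK

open Set Filter MeasureTheory Topology ENNReal

/-- the distance to the nearest integer -/
noncomputable def phi (x : ℝ) : ℝ := |x - round x|

/-- the values of the partial sums at the dyadic points of the level `k`, multiplied by `2 ^ k` -/
def Hs (s : ℕ → ℕ → ℤ) : ℕ → ℕ → ℤ
  | 0, _ => 0
  | k + 1, j =>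
    if j % 2 = 0 then 2 * Hs s k (j / 2) else Hs s k (j / 2) + Hs s k (j / 2 + 1) + s k (j / 2)

/-- the terms of the series -/
noncomputable def term (s : ℕ → ℕ → ℤ) (x : ℝ) (n : ℕ) : ℝ :=
  (s n ⌊2 ^ n * x⌋₊ : ℝ) / 2 ^ n * phi (2 ^ n * x)

theorem Hs_even (s : ℕ → ℕ → ℤ) (k i : ℕ) : Hs s (k + 1) (2 * i) = 2 * Hs s k i := by
  have h1 : (2 * i) % 2 = 0 := by omega
  have h2 : (2 * i) / 2 = i := by omega
  rw [Hs, if_pos h1, h2]

theorem Hs_odd (s : ℕ → ℕ → ℤ) (k i : ℕ) :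
    Hs s (k + 1) (2 * i + 1) = Hs s k i + Hs s k (i + 1) + s k i := by
  have h1 : ¬ (2 * i + 1) % 2 = 0 := by omega
  have h2 : (2 * i + 1) / 2 = i := by omega
  rw [Hs, if_neg h1, h2]

theorem interp (s : ℕ → ℕ → ℤ) (k : ℕ) : ∀ (x : ℝ) (i : ℕ) (t : ℝ), 0 ≤ t → t < 1 →
    2 ^ k * x = i + t →
    2 ^ k * ∑ n ∈ Finset.range k, term s x n = (1 - t) * Hs s k i + t * Hs s k (i + 1) := by
  induction k with
  | zero =>
    intro x i t _ _ _
    simp [Hs]
  | succ k ih =>
    intro x i' t' h0 h1 hx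
    have hfl : ∀ (i : ℕ) (t : ℝ), 0 ≤ t → t < 1 → 2 ^ k * x = i + t → ⌊2 ^ k * x⌋₊ = i := by
      intro i t h2 h3 h4
      rw [h4, Nat.floor_eq_iff (by positivity)]
      constructor <;> linarith
    have hround : ∀ (i : ℕ) (t : ℝ), 0 ≤ t → t < 1 → 2 ^ k * x = i + t →
        phi (2 ^ k * x) = min t (1 - t) := by
      intro i t h2 h3 h4
      rw [phi, abs_sub_round_eq_min, h4]
      have : Int.fract ((i : ℝ) + t) = t := by
        rw [Int.fract_natCast_add, Int.fract_eq_self]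
        exact ⟨h2, h3⟩
      rw [this]
    rw [Finset.sum_range_succ, mul_add, pow_succ]
    obtain ⟨i, hi | hi⟩ : ∃ i, i' = 2 * i ∨ i' = 2 * i + 1 := ⟨i' / 2, by omega⟩
    · subst hi
      have hx2 : 2 ^ k * x = i + t' / 2 := by
        rw [pow_succ] at hx
        push_cast at hx
        linarith
      have hf := hfl i (t' / 2) (by linarith) (by linarith) hx2
      have hr := hround i (t' / 2) (by linarith) (by linarith) hx2
      have h := ih x i (t' / 2) (by linarith) (by linarith) hx2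
      have hm : min (t' / 2) (1 - t' / 2) = t' / 2 := min_eq_left (by linarith)
      rw [Hs_even, Hs_odd]
      have e : 2 ^ k * 2 * term s x k = 2 * (s k i : ℝ) * (t' / 2) := by
        rw [term, hf, hr, hm]
        field_simp
      rw [e, mul_comm ((2 : ℝ) ^ k) 2, mul_assoc, h]
      push_cast
      ring
    · subst hi
      have hx2 : 2 ^ k * x = i + (t' + 1) / 2 := by
        rw [pow_succ] at hx
        push_cast at hx
        linarith
      have hf := hfl i ((t' + 1) / 2) (by linarith) (by linarith) hx2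
      have hr := hround i ((t' + 1) / 2) (by linarith) (by linarith) hx2
      have h := ih x i ((t' + 1) / 2) (by linarith) (by linarith) hx2
      have hm : min ((t' + 1) / 2) (1 - (t' + 1) / 2) = (1 - t') / 2 := by
        rw [min_eq_right (by linarith)]
        ring
      have e1 : Hs s (k + 1) (2 * i + 1 + 1) = 2 * Hs s k (i + 1) := by
        rw [← Hs_even]
        rfl
      rw [e1, Hs_odd]
      have e : 2 ^ k * 2 * term s x k = 2 * (s k i : ℝ) * ((1 - t') / 2) := by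
        rw [term, hf, hr, hm]
        field_simp
      rw [e, mul_comm ((2 : ℝ) ^ k) 2, mul_assoc, h]
      push_cast
      ring

theorem phi_le (x : ℝ) : phi x ≤ 1 / 2 := by
  rw [phi]
  exact abs_sub_round x

theorem phi_nonneg (x : ℝ) : 0 ≤ phi x := abs_nonneg _

theorem norm_term_le {s : ℕ → ℕ → ℤ} (hs : ∀ n i, s n i = 1 ∨ s n i = -1) (x : ℝ) (n : ℕ) :
    ‖term s x n‖ ≤ (1 / 2) ^ n * (1 / 2) := by
  have h1 : |(s n ⌊2 ^ n * x⌋₊ : ℝ)| = 1 := by
    rcases hs n ⌊2 ^ n * x⌋₊ with h | h <;> rw [h] <;> simp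
  rw [term, norm_mul, norm_div, Real.norm_eq_abs, Real.norm_eq_abs, h1, Real.norm_eq_abs,
    abs_of_nonneg (phi_nonneg _), abs_of_pos (by positivity : (0 : ℝ) < 2 ^ n), one_div_pow]
  exact mul_le_mul_of_nonneg_left (phi_le _) (by positivity)

theorem summable_term {s : ℕ → ℕ → ℤ} (hs : ∀ n i, s n i = 1 ∨ s n i = -1) (x : ℝ) :
    Summable (term s x) :=
  Summable.of_norm_bounded (summable_geometric_two.mul_right (1 / 2)) (norm_term_le hs x)

theorem tail {s : ℕ → ℕ → ℤ} (hs : ∀ n i, s n i = 1 ∨ s n i = -1) (x : ℝ) (k : ℕ) :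
    |2 ^ k * ∑' n, term s x n - 2 ^ k * ∑ n ∈ Finset.range k, term s x n| ≤ 1 := by
  have h1 := (summable_term hs x).sum_add_tsum_nat_add k
  rw [← mul_sub, ← h1, add_sub_cancel_left, abs_mul, abs_of_pos (by positivity : (0 : ℝ) < 2 ^ k)]
  have h2 : HasSum (fun n : ℕ => (1 / 2 : ℝ) ^ (n + k) * (1 / 2)) ((1 / 2) ^ k) := by
    have h3 := (hasSum_geometric_two.mul_right ((1 / 2 : ℝ) ^ k * (1 / 2)))
    have e1 : (fun n : ℕ => (1 / 2 : ℝ) ^ (n + k) * (1 / 2)) =
        fun n => (1 / 2 : ℝ) ^ n * ((1 / 2 : ℝ) ^ k * (1 / 2)) := by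
      funext n
      rw [pow_add]
      ring
    have e2 : 2 * ((1 / 2 : ℝ) ^ k * (1 / 2)) = (1 / 2) ^ k := by ring
    rw [e2] at h3
    rw [e1]
    exact h3
  have h4 : ‖∑' n, term s x (n + k)‖ ≤ (1 / 2) ^ k :=
    tsum_of_norm_bounded h2 (fun n => norm_term_le hs x (n + k))
  rw [Real.norm_eq_abs] at h4
  calc (2 : ℝ) ^ k * |∑' n, term s x (n + k)| ≤ 2 ^ k * (1 / 2) ^ k :=
        mul_le_mul_of_nonneg_left h4 (by positivity)
    _ = 1 := by rw [← mul_pow]; norm_num

/-- a set which is covered, for all `m`, by at most `p m` dyadic intervals of the level `2 m + 1`, where `p`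
grows subexponentially, has dimension zero -/
theorem dimH_eq_zero_of_cover {L : Set ℝ} (p : ℕ → ℕ)
    (hp : ∀ c : ℝ, 0 < c → c < 1 → Tendsto (fun m => (p m : ℝ) * c ^ m) atTop (𝓝 0))
    (cover : ∀ m, ∃ I : Finset ℕ, I.card ≤ p m ∧
      L ⊆ ⋃ i ∈ I, Icc ((i : ℝ) / 2 ^ (2 * m + 1)) ((i + 1) / 2 ^ (2 * m + 1))) : dimH L = 0 := by
  choose I hI hcov using cover
  refine le_antisymm ?_ bot_le
  refine ENNReal.le_of_forall_pos_le_add fun d hd _ => ?_
  rw [zero_add]
  refine dimH_le_of_hausdorffMeasure_ne_top ?_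
  have hdi : ∀ (m : ℕ) (i : ℕ), Metric.ediam (Icc ((i : ℝ) / 2 ^ (2 * m + 1))
      ((i + 1) / 2 ^ (2 * m + 1))) = ENNReal.ofReal ((1 / 2) ^ (2 * m + 1)) := by
    intro m i
    rw [Real.ediam_Icc]
    congr 1
    rw [one_div_pow]
    ring
  have hr0 : Tendsto (fun m : ℕ => (1 / 2 : ℝ) ^ (2 * m + 1)) atTop (𝓝 0) := by
    have h := tendsto_pow_atTop_nhds_zero_of_lt_one (by norm_num : (0 : ℝ) ≤ 1 / 2) (by norm_num)
    exact h.comp (tendsto_atTop_mono (fun m => (show m ≤ 2 * m + 1 by omega)) tendsto_id)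
  have hr : Tendsto (fun m : ℕ => ENNReal.ofReal ((1 / 2 : ℝ) ^ (2 * m + 1))) atTop (𝓝 0) := by
    have := ENNReal.tendsto_ofReal hr0
    rwa [ENNReal.ofReal_zero] at this
  have hle := Measure.hausdorffMeasure_le_liminf_sum (ι := fun m => (I m : Set ℕ)) (d : ℝ) L
    (fun m => ENNReal.ofReal ((1 / 2) ^ (2 * m + 1))) hr
    (fun m i => Icc ((i : ℝ) / 2 ^ (2 * m + 1)) ((i + 1) / 2 ^ (2 * m + 1)))
    (Eventually.of_forall fun m i => (hdi m i).le)
    (Eventually.of_forall fun m => by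
      refine (hcov m).trans ?_
      intro x hx
      simp only [mem_iUnion] at hx ⊢
      obtain ⟨i, hi, hx⟩ := hx
      exact ⟨⟨i, hi⟩, hx⟩)
  have hd' : (0 : ℝ) < d := hd
  set c : ℝ := (1 / 4 : ℝ) ^ (d : ℝ) with hc
  have hc0 : 0 < c := Real.rpow_pos_of_pos (by norm_num) _
  have hc1 : c < 1 := Real.rpow_lt_one (by norm_num) (by norm_num) hd'
  have hz : Tendsto (fun m => ENNReal.ofReal ((p m : ℝ) * c ^ m)) atTop (𝓝 0) := by
    have := ENNReal.tendsto_ofReal (hp c hc0 hc1)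
    rwa [ENNReal.ofReal_zero] at this
  have hb : ∀ m, ∑ i : (I m : Set ℕ), Metric.ediam (Icc (((i : ℕ) : ℝ) / 2 ^ (2 * m + 1))
      ((((i : ℕ) : ℝ) + 1) / 2 ^ (2 * m + 1))) ^ (d : ℝ) ≤ ENNReal.ofReal ((p m : ℝ) * c ^ m) := by
    intro m
    have h1 : ENNReal.ofReal ((1 / 2) ^ (2 * m + 1)) ^ (d : ℝ) ≤ ENNReal.ofReal (c ^ m) := by
      rw [ENNReal.ofReal_rpow_of_pos (by positivity)]
      refine ENNReal.ofReal_le_ofReal ?_
      have e : c ^ m = ((1 / 4 : ℝ) ^ m) ^ (d : ℝ) := by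
        rw [hc, ← Real.rpow_natCast, ← Real.rpow_mul (by norm_num), ← Real.rpow_natCast,
          ← Real.rpow_mul (by norm_num), mul_comm]
      rw [e]
      refine Real.rpow_le_rpow (by positivity) ?_ hd'.le
      rw [pow_succ, pow_mul]
      norm_num
    simp only [hdi, Finset.sum_const, Finset.card_univ, nsmul_eq_mul]
    rw [ENNReal.ofReal_mul (by positivity), ENNReal.ofReal_natCast]
    refine mul_le_mul' ?_ h1
    have : Fintype.card (I m : Set ℕ) = (I m).card := by simp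
    rw [this]
    exact_mod_cast hI m
  have h0 : μH[(d : ℝ)] L ≤ 0 := by
    refine hle.trans ?_
    refine (liminf_le_liminf (Eventually.of_forall hb)).trans ?_
    rw [hz.liminf_eq]
  rw [le_antisymm h0 bot_le]
  exact ENNReal.zero_ne_top

end Pool.Agent.K7.H78.TK
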