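import Pool.Agent.K7.H78.TK.Arm
import Pool.Agent.K7.H78.TK.Gen

/-!
# A generalized Takagi function all of whose level sets have dimension zero
-/

set_option autoImplicit false

namespace Pool.Agent.K7.H78.TK

open Set Filter MeasureTheory Topology

/-- the signs -/
def sgn (n i : ℕ) : ℤ :=
  if n = 0 then 1 else if n % 2 = 1 then sg1 (G (n / 2)) i else sg2 (G (n / 2 - 1)) i

theorem sg1_cases (g : ℕ → ℤ) (i : ℕ) : sg1 g i = 1 ∨ sg1 g i = -1 := dl_cases _

theorem sg2_cases (g : ℕ → ℤ) (i : ℕ) : sg2 g i = 1 ∨ sg2 g i = -1 := by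
  unfold sg2
  split_ifs
  · rcases dl_cases (stG g (i / 2)).2 with h | h <;> rw [h] <;> simp
  · exact om2_cases _ _ (bet_cases _ _)

theorem sgn_cases (n i : ℕ) : sgn n i = 1 ∨ sgn n i = -1 := by
  unfold sgn
  split_ifs
  · simp
  · exact sg1_cases _ _
  · exact sg2_cases _ _

theorem sgn_odd (m i : ℕ) : sgn (2 * m + 1) i = sg1 (G m) i := by
  have h1 : ¬ 2 * m + 1 = 0 := by omega
  have h2 : (2 * m + 1) % 2 = 1 := by omega
  have h3 : (2 * m + 1) / 2 = m := by omega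
  rw [sgn, if_neg h1, if_pos h2, h3]

theorem sgn_even (m i : ℕ) : sgn (2 * m + 2) i = sg2 (G m) i := by
  have h1 : ¬ 2 * m + 2 = 0 := by omega
  have h2 : ¬ (2 * m + 2) % 2 = 1 := by omega
  have h3 : (2 * m + 2) / 2 - 1 = m := by omega
  rw [sgn, if_neg h1, if_neg h2, h3]

theorem Hs_sgn (m : ℕ) : ∀ i, Hs sgn (2 * m + 1) i = G m i := by
  induction m with
  | zero =>
    intro i
    obtain ⟨j, hj | hj⟩ : ∃ j, i = 2 * j ∨ i = 2 * j + 1 := ⟨i / 2, by omega⟩
    · subst hj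
      rw [Hs_even]
      simp [Hs, G]
    · subst hj
      rw [Hs_odd]
      have : (2 * j + 1) % 2 = 1 := by omega
      simp [Hs, G, sgn, this]
  | succ m ih =>
    intro j
    obtain ⟨i, r, hr, rfl⟩ : ∃ i r, r < 4 ∧ j = 4 * i + r := ⟨j / 4, j % 4, by omega, by omega⟩
    have e0 : ∀ i, Hs sgn (2 * m + 2) (2 * i) = 2 * G m i := fun i => by rw [Hs_even, ih]
    have e1 : Hs sgn (2 * m + 2) (2 * i + 1) = G m i + G m (i + 1) + sg1 (G m) i := by
      rw [Hs_odd, ih, ih, sgn_odd]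
    have hm : 2 * (m + 1) + 1 = (2 * m + 2) + 1 := by ring
    rw [hm, G]
    interval_cases r
    · have : 4 * i + 0 = 2 * (2 * i) := by ring
      rw [this, Hs_even, e0, ← this, Nat.add_zero, step_zero]
      ring
    · have : 4 * i + 1 = 2 * (2 * i) + 1 := by ring
      rw [step_one, this, Hs_odd, e0, e1, sgn_even]
      ring
    · have : 4 * i + 2 = 2 * (2 * i + 1) := by ring
      rw [step_two, this, Hs_even, e1]
    · have : 4 * i + 3 = 2 * (2 * i + 1) + 1 := by ring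
      have h2 : 2 * i + 1 + 1 = 2 * (i + 1) := by ring
      rw [step_three, this, Hs_odd, h2, e0, e1, sgn_even]
      ring

/-- the value of the partial sum is close to the value at the old endpoint -/
theorem near (m : ℕ) (x : ℝ) (i : ℕ) (t : ℝ) (h0 : 0 ≤ t) (h1 : t < 1)
    (hx : 2 ^ (2 * m + 1) * x = i + t) :
    |2 ^ (2 * m + 1) * ∑' n, term sgn x n - (stG (G m) i).1| ≤ 2 * m + 2 := by
  have h2 := interp sgn (2 * m + 1) x i t h0 h1 hx
  have h3 := tail sgn_cases x (2 * m + 1)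
  rw [h2, Hs_sgn, Hs_sgn] at h3
  have h4 := (G_inv m i).2.2
  have h5 : |((stG (G m) i).2 : ℝ)| ≤ 2 * m + 1 := by exact_mod_cast h4
  have h6 : |(1 - t) * (G m i : ℝ) + t * (G m (i + 1) : ℝ) - (stG (G m) i).1| ≤ 2 * m + 1 := by
    rcases Nat.mod_two_eq_zero_or_one i with hi | hi
    · have st : stG (G m) i = (G m i, G m (i + 1) - G m i) := by simp [stG, hi]
      rw [st] at h5 ⊢
      push_cast at h5 ⊢
      have e : (1 - t) * (G m i : ℝ) + t * (G m (i + 1) : ℝ) - G m i =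
          t * ((G m (i + 1) : ℝ) - G m i) := by ring
      rw [e, abs_mul, abs_of_nonneg h0]
      nlinarith [abs_nonneg ((G m (i + 1) : ℝ) - G m i)]
    · have st : stG (G m) i = (G m (i + 1), G m i - G m (i + 1)) := by simp [stG, hi]
      rw [st] at h5 ⊢
      push_cast at h5 ⊢
      have e : (1 - t) * (G m i : ℝ) + t * (G m (i + 1) : ℝ) - G m (i + 1) =
          (1 - t) * ((G m i : ℝ) - G m (i + 1)) := by ring
      rw [e, abs_mul, abs_of_nonneg (by linarith : 0 ≤ 1 - t)]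
      nlinarith [abs_nonneg ((G m i : ℝ) - G m (i + 1))]
  rw [abs_le] at h3 h6 ⊢
  constructor <;> linarith [h3.1, h3.2, h6.1, h6.2]

/-- the number of the intervals with a state close to `Y` -/
theorem card_near (m : ℕ) (Y : ℝ) :
    ((Finset.range (2 * 4 ^ m)).filter
      (fun i => |Y - (stG (G m) i).1| ≤ 2 * m + 2)).card ≤ 20 * (m + 2) ^ 3 := by
  set T : Finset (ℤ × ℤ) := Finset.Icc ⌈Y - (2 * m + 2)⌉ ⌊Y + (2 * m + 2)⌋ ×ˢ
    Finset.Icc (-(2 * m + 1) : ℤ) (2 * m + 1) with hT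
  have h1 : ((Finset.range (2 * 4 ^ m)).filter
      (fun i => |Y - (stG (G m) i).1| ≤ 2 * m + 2)).card ≤ (m + 2) * T.card := by
    refine Finset.card_le_mul_card_image_of_maps_to (f := fun i => stG (G m) i) ?_ (m + 2) ?_
    · intro i hi
      rw [Finset.mem_filter] at hi
      have h2 := abs_le.1 hi.2
      have h3 := abs_le.1 (G_inv m i).2.2
      rw [hT, Finset.mem_product, Finset.mem_Icc, Finset.mem_Icc]
      refine ⟨⟨?_, ?_⟩, h3.1, h3.2⟩
      · rw [Int.ceil_le]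
        linarith [h2.2]
      · rw [Int.le_floor]
        linarith [h2.1]
    · intro σ _
      refine le_trans (Finset.card_le_card ?_) ((Nat.count_eq_card_filter_range _ _).symm.trans_le
        (G_mult m σ))
      intro i hi
      rw [Finset.mem_filter, Finset.mem_filter] at hi
      rw [Finset.mem_filter]
      exact ⟨hi.1.1, hi.2⟩
  have h2 : T.card ≤ (4 * m + 5) * (4 * m + 3) := by
    rw [hT, Finset.card_product, Int.card_Icc, Int.card_Icc]
    refine Nat.mul_le_mul ?_ (by omega)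
    have h3 : ⌊Y + (2 * m + 2)⌋ - ⌈Y - (2 * m + 2)⌉ ≤ 4 * (m : ℤ) + 4 := by
      have h4 := Int.floor_le (Y + (2 * m + 2))
      have h5 := Int.le_ceil (Y - (2 * m + 2))
      have h6 : ((⌊Y + (2 * m + 2)⌋ - ⌈Y - (2 * m + 2)⌉ : ℤ) : ℝ) ≤ ((4 * (m : ℤ) + 4 : ℤ) : ℝ) := by
        push_cast
        linarith
      exact_mod_cast h6
    omega
  refine h1.trans ((Nat.mul_le_mul_left _ h2).trans ?_)
  nlinarith [Nat.zero_le m]

/-- the cover of the level set -/
theorem cover (y : ℝ) (m : ℕ) : ∃ I : Finset ℕ, I.card ≤ 20 * (m + 2) ^ 3 + 1 ∧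
    {x ∈ Icc (0 : ℝ) 1 | ∑' n, term sgn x n = y} ⊆
      ⋃ i ∈ I, Icc ((i : ℝ) / 2 ^ (2 * m + 1)) ((i + 1) / 2 ^ (2 * m + 1)) := by
  classical
  have h2k : (0 : ℝ) < 2 ^ (2 * m + 1) := by positivity
  have hpow : (2 : ℝ) ^ (2 * m + 1) = 2 * 4 ^ m := by
    rw [pow_succ, pow_mul]
    norm_num
    ring
  refine ⟨insert (2 * 4 ^ m - 1) ((Finset.range (2 * 4 ^ m)).filter
      (fun i => |2 ^ (2 * m + 1) * y - (stG (G m) i).1| ≤ 2 * m + 2)),
    (Finset.card_insert_le _ _).trans (Nat.succ_le_succ (card_near m _)), ?_⟩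
  rintro x ⟨⟨hx0, hx1⟩, hxy⟩
  simp only [mem_iUnion]
  rcases hx1.eq_or_lt with hx1 | hx1
  · refine ⟨2 * 4 ^ m - 1, Finset.mem_insert_self _ _, ?_⟩
    have h1 : 1 ≤ 2 * 4 ^ m := by
      have : 0 < 4 ^ m := by positivity
      omega
    rw [hx1, mem_Icc, div_le_iff₀ h2k, le_div_iff₀ h2k]
    push_cast [h1]
    rw [hpow]
    constructor <;> linarith
  · have hfl : (⌊2 ^ (2 * m + 1) * x⌋₊ : ℝ) ≤ 2 ^ (2 * m + 1) * x := Nat.floor_le (by positivity)
    have hlt := Nat.lt_floor_add_one (2 ^ (2 * m + 1) * x)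
    refine ⟨⌊2 ^ (2 * m + 1) * x⌋₊, ?_, ?_⟩
    · refine Finset.mem_insert_of_mem ?_
      rw [Finset.mem_filter, Finset.mem_range]
      constructor
      · rw [Nat.floor_lt (by positivity)]
        push_cast
        rw [← hpow]
        nlinarith
      · have := near m x ⌊2 ^ (2 * m + 1) * x⌋₊ (2 ^ (2 * m + 1) * x - ⌊2 ^ (2 * m + 1) * x⌋₊)
          (by linarith) (by linarith) (by ring)
        rw [hxy] at this
        exact this
    · rw [mem_Icc, div_le_iff₀ h2k, le_div_iff₀ h2k]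
      constructor <;> linarith

theorem dim_zero (y : ℝ) : dimH {x ∈ Icc (0 : ℝ) 1 | ∑' n, term sgn x n = y} = 0 := by
  refine dimH_eq_zero_of_cover (fun m => 20 * (m + 2) ^ 3 + 1) ?_ (cover y)
  intro c hc0 hc1
  have h1 : Tendsto (fun m : ℕ => ((m : ℝ)) ^ 3 * c ^ m) atTop (𝓝 0) :=
    tendsto_pow_const_mul_const_pow_of_abs_lt_one 3 (by rw [abs_of_pos hc0]; exact hc1)
  have h2 : Tendsto (fun m : ℕ => 20 / c ^ 2 * (((m + 2 : ℕ) : ℝ) ^ 3 * c ^ (m + 2)) + c ^ m) atTop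
      (𝓝 (20 / c ^ 2 * 0 + 0)) :=
    ((h1.comp (tendsto_add_atTop_nat 2)).const_mul _).add
      (tendsto_pow_atTop_nhds_zero_of_lt_one hc0.le hc1)
  rw [mul_zero, add_zero] at h2
  refine h2.congr fun m => ?_
  push_cast
  field_simp
  ring

end Pool.Agent.K7.H78.TK
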